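import Mathlib

/-!
# Dilated polynomial patterns: the monic case implies the general case

For `Q`, `P_1, …, P_k ∈ ℤ[t]` with `Q ≠ 0`, `Q(0) = 0`, `P_i(0) = 0`, the pattern
`{Q(d)(x + P_1(d)), …, Q(d)(x + P_k(d))}` is partition regular over the integers (`PR Q P`) if for
every finite colouring of the nonzero integers there are integers `x` and `d ≠ 0` such that all
elements of the pattern are nonzero and of the same colour.

The theorem: the pattern is partition regular for all *monic* `Q` (and all families `P`), which is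
the known case of the problem, if and only if it is partition regular for *all* `Q ≠ 0` with
`Q(0) = 0` (and all families `P`). So the answer to the question is positive.

Proof. Let `a` be the leading coefficient of `Q` and `m` its degree, `Q₁(v) = a ^ (m - 1) Q(v / a)`,
a monic integer polynomial. Then `Q₂(u) = u Q₁(u²)` is monic, and `a ^ T P_i(u² / a) / u` is an
integer polynomial in `u` without constant term. By adding the polynomials `j u` to the family, and
the last digits in the bases `p ∣ a` to the colouring, one forces `u` to be divisible by a large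
power of `a`; then `d = u² / a` and `x = u X / a ^ T` are integers and the pattern of `Q₂` at
`(X, u)` is `a ^ (m - 1 + T)` times the pattern of `Q` at `(x, d)`.
-/

namespace Pool.Agent.Results.MP_5597c5_co.MonicSuffices

open Polynomial

/-- The pattern `{Q(d)(x + P_i(d)) : i}` is partition regular over the integers: for every colouring
with finitely many colours there are `x` and `d ≠ 0` such that all elements of the pattern are
nonzero and have the same colour (the colour of `0` plays no role). -/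
def PR {k : ℕ} (Q : ℤ[X]) (P : Fin k → ℤ[X]) : Prop :=
  ∀ (r : ℕ) (c : ℤ → Fin r), ∃ (x d : ℤ) (a : Fin r), d ≠ 0 ∧
    ∀ i, Q.eval d * (x + (P i).eval d) ≠ 0 ∧ c (Q.eval d * (x + (P i).eval d)) = a

/-! ### The part of an integer prime to `p` -/

/-- The part of `z` prime to `p`. -/
noncomputable def up (p z : ℤ) : ℤ := by
  classical
  exact if h : ∃ w : ℤ, ∃ e : ℕ, z = p ^ e * w ∧ ¬ p ∣ w then h.choose else 0

theorem up_eq {p : ℤ} (hp : p ≠ 0) {w : ℤ} (e : ℕ) (hw : ¬ p ∣ w) : up p (p ^ e * w) = w := by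
  classical
  have h : ∃ w' : ℤ, ∃ e' : ℕ, p ^ e * w = p ^ e' * w' ∧ ¬ p ∣ w' := ⟨w, e, rfl, hw⟩
  have h1 : up p (p ^ e * w) = h.choose := by
    unfold up
    rw [dif_pos h]
  rw [h1]
  obtain ⟨e', h2, h3⟩ := h.choose_spec
  set w' := h.choose
  rcases lt_trichotomy e e' with hlt | heq | hgt
  · exfalso
    apply hw
    have h4 : p ^ e * w = p ^ e * (p ^ (e' - e) * w') := by
      rw [h2, ← mul_assoc, ← pow_add]
      congr 2
      omega
    have h5 := mul_left_cancel₀ (pow_ne_zero e hp) h4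
    rw [h5]
    exact dvd_mul_of_dvd_left (dvd_pow_self p (by omega)) _
  · subst heq
    exact (mul_left_cancel₀ (pow_ne_zero e hp) h2).symm
  · exfalso
    apply h3
    have h4 : p ^ e' * w' = p ^ e' * (p ^ (e - e') * w) := by
      rw [← h2, ← mul_assoc, ← pow_add]
      congr 2
      omega
    have h5 := mul_left_cancel₀ (pow_ne_zero e' hp) h4
    rw [h5]
    exact dvd_mul_of_dvd_left (dvd_pow_self p (by omega)) _

theorem exists_decomp {p : ℕ} (hp : p.Prime) {z : ℤ} (hz : z ≠ 0) :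
    ∃ (e : ℕ) (w : ℤ), z = (p : ℤ) ^ e * w ∧ ¬ (p : ℤ) ∣ w := by
  have h1 : FiniteMultiplicity (p : ℤ) z := by
    rw [Int.finiteMultiplicity_iff]
    exact ⟨by simpa using hp.ne_one, hz⟩
  obtain ⟨w, hw1, hw2⟩ := h1.exists_eq_pow_mul_and_not_dvd
  exact ⟨_, w, hw1, hw2⟩

theorem up_mul {p : ℕ} (hp : p.Prime) {y z : ℤ} (hy : y ≠ 0) (hz : z ≠ 0) :
    up p (y * z) = up p y * up p z := by
  have hp0 : (p : ℤ) ≠ 0 := by exact_mod_cast hp.ne_zero
  obtain ⟨e, w, h1, h2⟩ := exists_decomp hp hy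
  obtain ⟨e', w', h3, h4⟩ := exists_decomp hp hz
  have h5 : y * z = (p : ℤ) ^ (e + e') * (w * w') := by
    rw [h1, h3]
    ring
  have hpi : Prime (p : ℤ) := Nat.prime_iff_prime_int.1 hp
  rw [h5, up_eq hp0 _ (fun h => (hpi.dvd_or_dvd h).elim h2 h4), h1, up_eq hp0 _ h2, h3,
    up_eq hp0 _ h4]

theorem up_not_dvd {p : ℕ} (hp : p.Prime) {y : ℤ} (hy : y ≠ 0) : ¬ (p : ℤ) ∣ up p y := by
  have hp0 : (p : ℤ) ≠ 0 := by exact_mod_cast hp.ne_zero
  obtain ⟨e, w, h1, h2⟩ := exists_decomp hp hy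
  rw [h1, up_eq hp0 _ h2]
  exact h2

theorem isUnit_cast {p : ℕ} (hp : p.Prime) (S : ℕ) {w : ℤ} (hw : ¬ (p : ℤ) ∣ w) :
    IsUnit ((w : ℤ) : ZMod (p ^ S)) := by
  have h1 : IsCoprime w ((p : ℤ) ^ S) := by
    have hpi : Prime (p : ℤ) := Nat.prime_iff_prime_int.1 hp
    exact ((Irreducible.coprime_iff_not_dvd hpi.irreducible).2 hw).symm.pow_right
  obtain ⟨u, v, huv⟩ := h1
  have h2 : ((u : ℤ) : ZMod (p ^ S)) * (w : ZMod (p ^ S)) = 1 := by
    have h3 := congrArg (Int.cast : ℤ → ZMod (p ^ S)) huv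
    push_cast at h3
    have h4 : ((p : ZMod (p ^ S))) ^ S = 0 := by
      have := ZMod.natCast_self (p ^ S)
      push_cast at this
      exact this
    rw [h4, mul_zero, add_zero] at h3
    exact h3
  exact IsUnit.of_mul_eq_one _ (by rw [mul_comm]; exact h2)

/-- If the last `S` nonzero digits in base `p` of `b (X + j u)` are the same for all `j`, then `u` is
divisible by `p ^ S`. -/
theorem pow_dvd {p : ℕ} (hp : p.Prime) {S : ℕ} (hS : 2 ≤ S) {b X u : ℤ} (hb : b ≠ 0) (hu : u ≠ 0)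
    {J : ℕ} (hJ : p ^ 2 ≤ J) (hne : ∀ j < J, X + j * u ≠ 0)
    (hsame : ∀ j < J, ((up p (b * (X + j * u)) : ℤ) : ZMod (p ^ S)) =
      ((up p (b * (X + (0 : ℕ) * u)) : ℤ) : ZMod (p ^ S))) : (p : ℤ) ^ S ∣ u := by
  have hp0 : (p : ℤ) ≠ 0 := by exact_mod_cast hp.ne_zero
  have hpi : Prime (p : ℤ) := Nat.prime_iff_prime_int.1 hp
  have hJ4 : 4 ≤ J := le_trans (by nlinarith [hp.two_le]) hJ
  obtain ⟨g, X2, u2, hg, hcop, hX, hu2⟩ : ∃ g X2 u2 : ℤ, g ≠ 0 ∧ IsCoprime X2 u2 ∧ X = g * X2 ∧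
      u = g * u2 := by
    have hg : ((Int.gcd X u : ℕ) : ℤ) ≠ 0 := by
      have : Int.gcd X u ≠ 0 := by
        rw [Ne, Int.gcd_eq_zero_iff]
        exact fun h => hu h.2
      exact_mod_cast this
    refine ⟨Int.gcd X u, X / Int.gcd X u, u / Int.gcd X u, hg, ?_, ?_, ?_⟩
    · exact Int.isCoprime_iff_gcd_eq_one.2 (Int.gcd_div_gcd_div_gcd
        (Nat.pos_of_ne_zero (by exact_mod_cast hg)))
    · exact (Int.mul_ediv_cancel' (Int.gcd_dvd_left ..)).symm
    · exact (Int.mul_ediv_cancel' (Int.gcd_dvd_right ..)).symm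
  have hfac : ∀ j : ℕ, X + j * u = g * (X2 + j * u2) := by
    intro j
    rw [hX, hu2]
    ring
  have hne2 : ∀ j < J, X2 + (j : ℤ) * u2 ≠ 0 := by
    intro j hj h
    apply hne j hj
    rw [hfac, h, mul_zero]
  have hsame2 : ∀ j < J, ((up p (X2 + j * u2) : ℤ) : ZMod (p ^ S)) =
      ((up p (X2 + (0 : ℕ) * u2) : ℤ) : ZMod (p ^ S)) := by
    intro j hj
    have h1 := hsame j hj
    rw [hfac, hfac, ← mul_assoc, ← mul_assoc, up_mul hp (mul_ne_zero hb hg) (hne2 j hj),
      up_mul hp (mul_ne_zero hb hg) (hne2 0 (by omega))] at h1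
    push_cast at h1
    have h2 := (isUnit_cast hp S (up_not_dvd hp (mul_ne_zero hb hg)))
    have h3 := h2.mul_left_cancel h1
    push_cast
    exact h3
  by_cases hpu : (p : ℤ) ∣ u2
  · have hpX : ∀ j : ℕ, ¬ (p : ℤ) ∣ X2 + j * u2 := by
      intro j h
      have h1 : (p : ℤ) ∣ X2 := (dvd_add_left (dvd_mul_of_dvd_right hpu _)).1 h
      have h2 : (p : ℤ) ∣ 1 := by
        obtain ⟨s, t, hst⟩ := hcop
        rw [← hst]
        exact dvd_add (dvd_mul_of_dvd_right h1 _) (dvd_mul_of_dvd_right hpu _)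
      exact hpi.not_dvd_one h2
    have hup : ∀ j : ℕ, up p (X2 + j * u2) = X2 + j * u2 := by
      intro j
      have := up_eq hp0 0 (hpX j)
      rwa [pow_zero, one_mul] at this
    have h1 := hsame2 1 (by omega)
    rw [hup, hup] at h1
    have h2 : ((u2 : ℤ) : ZMod (p ^ S)) = 0 := by
      push_cast at h1
      simpa using h1
    have h3 : ((p ^ S : ℕ) : ℤ) ∣ u2 := (ZMod.intCast_zmod_eq_zero_iff_dvd _ _).1 h2
    push_cast at h3
    rw [hu2]
    exact dvd_mul_of_dvd_right h3 _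
  · exfalso
    -- `u2` is invertible modulo `p ^ 2`
    have hsolve : ∀ t : ℤ, ∃ j : ℕ, j < J ∧ (p : ℤ) ^ 2 ∣ X2 + j * u2 - t := by
      intro t
      have h1 : IsCoprime u2 ((p : ℤ) ^ 2) :=
        ((Irreducible.coprime_iff_not_dvd hpi.irreducible).2 hpu).symm.pow_right
      obtain ⟨s, v, hsv⟩ := h1
      have hpp : (0 : ℤ) < (p : ℤ) ^ 2 := by positivity
      refine ⟨((s * (t - X2)) % ((p : ℤ) ^ 2)).toNat, ?_, ?_⟩
      · have h2 := Int.emod_lt_of_pos (s * (t - X2)) hpp
        have h3 := Int.emod_nonneg (s * (t - X2)) hpp.ne'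
        have h4 : ((((s * (t - X2)) % ((p : ℤ) ^ 2)).toNat : ℕ) : ℤ) < ((p ^ 2 : ℕ) : ℤ) := by
          rw [Int.toNat_of_nonneg h3]
          push_cast
          exact h2
        have h5 : ((s * (t - X2)) % ((p : ℤ) ^ 2)).toNat < p ^ 2 := by exact_mod_cast h4
        omega
      · have h3 := Int.emod_nonneg (s * (t - X2)) hpp.ne'
        rw [Int.toNat_of_nonneg h3]
        have h4 : (p : ℤ) ^ 2 ∣ s * (t - X2) - (s * (t - X2)) % ((p : ℤ) ^ 2) :=
          Int.dvd_self_sub_emod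
        obtain ⟨q, hq⟩ := h4
        have h5 : (s * (t - X2)) % ((p : ℤ) ^ 2) = s * (t - X2) - (p : ℤ) ^ 2 * q := by
          linarith
        rw [h5]
        refine ⟨-v * (t - X2) - q * u2, ?_⟩
        have h6 : s * u2 = 1 - v * (p : ℤ) ^ 2 := by linarith
        linear_combination (t - X2) * h6
    obtain ⟨j1, hj1, hd1⟩ := hsolve 1
    obtain ⟨j2, hj2, hd2⟩ := hsolve (1 + p)
    have hpp2 : (p : ℤ) ∣ (p : ℤ) ^ 2 := dvd_pow_self _ (by norm_num)
    have hn1 : ¬ (p : ℤ) ∣ X2 + j1 * u2 := by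
      intro h
      have h1 := dvd_sub h (dvd_trans hpp2 hd1)
      rw [sub_sub_cancel] at h1
      exact hpi.not_dvd_one h1
    have hn2 : ¬ (p : ℤ) ∣ X2 + j2 * u2 := by
      intro h
      have h1 := dvd_sub h (dvd_trans hpp2 hd2)
      rw [sub_sub_cancel] at h1
      exact hpi.not_dvd_one ((dvd_add_left (dvd_refl _)).1 h1)
    have hup : ∀ j : ℕ, ¬ (p : ℤ) ∣ X2 + j * u2 → up p (X2 + j * u2) = X2 + j * u2 := by
      intro j hj
      have := up_eq hp0 0 hj
      rwa [pow_zero, one_mul] at this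
    have h1 := (hsame2 j1 hj1).trans (hsame2 j2 hj2).symm
    rw [hup j1 hn1, hup j2 hn2] at h1
    have h2 : (((X2 + j1 * u2) - (X2 + j2 * u2) : ℤ) : ZMod (p ^ S)) = 0 := by
      rw [Int.cast_sub, h1, sub_self]
    have h3 : ((p ^ S : ℕ) : ℤ) ∣ (X2 + j1 * u2) - (X2 + j2 * u2) :=
      (ZMod.intCast_zmod_eq_zero_iff_dvd _ _).1 h2
    push_cast at h3
    have h4 : (p : ℤ) ^ 2 ∣ (X2 + j1 * u2) - (X2 + j2 * u2) := dvd_trans (pow_dvd_pow _ hS) h3
    have h5 : (p : ℤ) ^ 2 ∣ (p : ℤ) := by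
      have h6 := dvd_sub (dvd_sub hd1 hd2) h4
      have h7 : X2 + ↑j1 * u2 - 1 - (X2 + ↑j2 * u2 - (1 + ↑p)) -
          (X2 + ↑j1 * u2 - (X2 + ↑j2 * u2)) = (p : ℤ) := by ring
      rwa [h7] at h6
    have h6 : ¬ (p : ℤ) ^ 2 ∣ (p : ℤ) := by
      intro h
      have h7 : p ^ 2 ∣ p := by exact_mod_cast h
      have h8 := Nat.le_of_dvd hp.pos h7
      nlinarith [hp.two_le]
    exact h6 h5

/-- If `p ^ S ∣ u` for all primes `p ∣ a`, with `S ≥ N |a|`, then `a ^ N ∣ u`. -/
theorem pow_dvd_of_primes {a u : ℤ} (ha : a ≠ 0) (hu : u ≠ 0) {N S : ℕ} (hS : N * a.natAbs ≤ S)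
    (h : ∀ p : ℕ, p.Prime → p ∣ a.natAbs → (p : ℤ) ^ S ∣ u) : a ^ N ∣ u := by
  rw [← Int.natAbs_dvd_natAbs, Int.natAbs_pow]
  have ha' : a.natAbs ≠ 0 := Int.natAbs_ne_zero.2 ha
  have hu' : u.natAbs ≠ 0 := Int.natAbs_ne_zero.2 hu
  rw [← Nat.factorization_prime_le_iff_dvd (pow_ne_zero _ ha') hu']
  intro p hp
  rw [Nat.factorization_pow, Finsupp.smul_apply, smul_eq_mul]
  by_cases hpa : p ∣ a.natAbs
  · have h1 : p ^ S ∣ u.natAbs := by
      have := h p hp hpa
      rw [← Int.natAbs_dvd_natAbs, Int.natAbs_pow, Int.natAbs_natCast] at this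
      exact this
    have h2 := (hp.pow_dvd_iff_le_factorization hu').1 h1
    have h3 := (Nat.factorization_lt p ha').le
    exact le_trans (le_trans (Nat.mul_le_mul_left _ h3) hS) h2
  · rw [Nat.factorization_eq_zero_of_not_dvd hpa, mul_zero]
    exact Nat.zero_le _

/-! ### Partition regularity for families indexed by finite types -/

theorem PR.fintype {ι : Type} [Fintype ι] {Q : ℤ[X]} {P : ι → ℤ[X]}
    (h : PR Q (fun i => P ((Fintype.equivFin ι).symm i))) {κ : Type} [Finite κ] (c : ℤ → κ) :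
    ∃ (x d : ℤ) (a : κ), d ≠ 0 ∧
      ∀ i, Q.eval d * (x + (P i).eval d) ≠ 0 ∧ c (Q.eval d * (x + (P i).eval d)) = a := by
  classical
  have := Fintype.ofFinite κ
  obtain ⟨x, d, a, hd, h1⟩ := h (Fintype.card κ) (fun z => Fintype.equivFin κ (c z))
  refine ⟨x, d, (Fintype.equivFin κ).symm a, hd, fun i => ?_⟩
  have h2 := h1 (Fintype.equivFin ι i)
  simp only [Equiv.symm_apply_apply] at h2
  refine ⟨h2.1, ?_⟩
  rw [← h2.2, Equiv.symm_apply_apply]

/-- **The monic case implies the general case.** -/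
theorem general_of_monic
    (hmonic : ∀ (k : ℕ) (Q : ℤ[X]) (P : Fin k → ℤ[X]), 1 ≤ k → Q.Monic → Q.eval 0 = 0 →
      (∀ i, (P i).eval 0 = 0) → PR Q P)
    (k : ℕ) (Q : ℤ[X]) (P : Fin k → ℤ[X]) (hk : 1 ≤ k) (hQ : Q ≠ 0) (hQ0 : Q.eval 0 = 0)
    (hP0 : ∀ i, (P i).eval 0 = 0) : PR Q P := by
  classical
  intro r c
  set a : ℤ := Q.leadingCoeff with ha_def
  have ha : a ≠ 0 := leadingCoeff_ne_zero.2 hQ
  set m : ℕ := Q.natDegree with hm_def
  have hm : 1 ≤ m := by
    by_contra hcon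
    have h1 : Q.natDegree = 0 := by omega
    rw [eq_C_of_natDegree_eq_zero h1] at hQ0 hQ
    rw [eval_C] at hQ0
    exact hQ (by rw [hQ0, C_0])
  -- the monic polynomial `Q₁`
  obtain ⟨Q1, hQ1m, hQ1⟩ : ∃ Q1 : ℤ[X], Q1.Monic ∧
      ∀ d : ℤ, Q1.eval (a * d) = a ^ (m - 1) * Q.eval d := by
    refine ⟨integralNormalization Q, monic_integralNormalization hQ, fun d => ?_⟩
    have h1 := congrArg (Polynomial.eval (a * d)) (integralNormalization_mul_C_leadingCoeff Q)
    rw [eval_mul, eval_C] at h1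
    have h2 : (scaleRoots Q a).eval (a * d) = a ^ m * Q.eval d := by
      have h3 := scaleRoots_eval₂_mul (p := Q) (f := RingHom.id ℤ) d a
      simpa [eval₂_id] using h3
    rw [← ha_def] at h1
    rw [h2] at h1
    have h4 : a ^ m = a ^ (m - 1) * a := by
      rw [← pow_succ]
      congr 1
      omega
    rw [h4] at h1
    have h5 : (Q.integralNormalization.eval (a * d)) * a = (a ^ (m - 1) * Q.eval d) * a := by
      rw [h1]
      ring
    exact mul_right_cancel₀ ha h5
  have hQ10 : Q1.eval 0 = 0 := by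
    have := hQ1 0
    rwa [mul_zero, hQ0, mul_zero] at this
  set Q2 : ℤ[X] := X * Q1.comp (X ^ 2) with hQ2_def
  have hQ2m : Q2.Monic := by
    refine monic_X.mul (hQ1m.comp (monic_X_pow 2) ?_)
    rw [natDegree_X_pow]
    norm_num
  have hQ20 : Q2.eval 0 = 0 := by
    rw [hQ2_def, eval_mul, eval_X, zero_mul]
  have hQ2e : ∀ u : ℤ, Q2.eval u = u * Q1.eval (u ^ 2) := by
    intro u
    rw [hQ2_def, eval_mul, eval_X, eval_comp, eval_pow, eval_X]
  -- the polynomials `a ^ T P_i(u² / a) / u`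
  set T : ℕ := ∑ i, (P i).natDegree with hT_def
  obtain ⟨R, hR0, hR⟩ : ∃ R : Fin k → ℤ[X], (∀ i, (R i).eval 0 = 0) ∧
      ∀ i (u d : ℤ), u ^ 2 = a * d → u * (R i).eval u = a ^ T * (P i).eval d := by
    have h1 : ∀ i, ∃ H : ℤ[X], (∀ d : ℤ, (a * d) * H.eval (a * d) = a ^ T * (P i).eval d) := by
      intro i
      have hT : (P i).natDegree ≤ T := Finset.single_le_sum (f := fun i => (P i).natDegree)
        (fun _ _ => Nat.zero_le _) (Finset.mem_univ i)
      set H0 : ℤ[X] := C (a ^ (T - (P i).natDegree)) * scaleRoots (P i) a with hH0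
      have h2 : ∀ d : ℤ, H0.eval (a * d) = a ^ T * (P i).eval d := by
        intro d
        rw [hH0, eval_mul, eval_C]
        have h3 := scaleRoots_eval₂_mul (p := P i) (f := RingHom.id ℤ) d a
        have h4 : (scaleRoots (P i) a).eval (a * d) = a ^ (P i).natDegree * (P i).eval d := by
          simpa [eval₂_id] using h3
        rw [h4, ← mul_assoc, ← pow_add]
        congr 2
        omega
      refine ⟨divX H0, fun d => ?_⟩
      have h3 : H0.coeff 0 = 0 := by
        have := h2 0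
        rw [mul_zero, hP0, mul_zero, ← coeff_zero_eq_eval_zero] at this
        exact this
      have h4 := congrArg (Polynomial.eval (a * d)) (divX_mul_X_add H0)
      rw [h3, C_0, add_zero, eval_mul, eval_X] at h4
      rw [mul_comm, h4, h2]
    choose H hH using h1
    refine ⟨fun i => X * (H i).comp (X ^ 2), fun i => ?_, fun i u d hud => ?_⟩
    · rw [eval_mul, eval_X, zero_mul]
    · rw [eval_mul, eval_X, eval_comp, eval_pow, eval_X, ← mul_assoc, ← pow_two, hud]
      exact hH i d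
  set N : ℕ := T + 1 with hN_def
  set S : ℕ := 2 + N * a.natAbs with hS_def
  set J : ℕ := a.natAbs ^ 2 with hJ_def
  -- the enlarged family and the refined colouring
  let ι : Type := Fin k ⊕ Fin J
  let P' : ι → ℤ[X] := Sum.elim R (fun j => C ((j : ℕ) : ℤ) * X)
  have hP'0 : ∀ i, (P' i).eval 0 = 0 := by
    rintro (i | j)
    · exact hR0 i
    · simp [P']
  let E : ℤ := a ^ (m - 1 + T)
  have hE : E ≠ 0 := pow_ne_zero _ ha
  let κ : Type := Fin r × (∀ p : {p : ℕ // p ∈ a.natAbs.primeFactors}, ZMod ((p : ℕ) ^ S))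
  have hfin : Finite κ := by
    have : ∀ p : {p : ℕ // p ∈ a.natAbs.primeFactors}, Finite (ZMod ((p : ℕ) ^ S)) := by
      intro p
      have hp : (p : ℕ).Prime := Nat.prime_of_mem_primeFactors p.2
      have : NeZero ((p : ℕ) ^ S) := ⟨pow_ne_zero _ hp.ne_zero⟩
      infer_instance
    infer_instance
  let χ : ℤ → κ := fun z => (c (z / E), fun p => ((up (p : ℕ) z : ℤ) : ZMod ((p : ℕ) ^ S)))
  have hcard : 1 ≤ Fintype.card ι := by
    simp only [ι, Fintype.card_sum, Fintype.card_fin]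
    omega
  obtain ⟨X', u, α, hu, hcol⟩ := PR.fintype (hmonic (Fintype.card ι) Q2
    (fun i => P' ((Fintype.equivFin ι).symm i)) hcard hQ2m hQ20 (fun i => hP'0 _)) χ
  -- `u` is divisible by a high power of `a`
  have haN : a ^ N ∣ u := by
    refine pow_dvd_of_primes ha hu (S := S) (by omega) ?_
    intro p hp hpa
    have hb : Q2.eval u ≠ 0 := by
      have h1 := (hcol (Sum.inl ⟨0, by omega⟩)).1
      exact left_ne_zero_of_mul h1
    have hmem : p ∈ a.natAbs.primeFactors :=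
      Nat.mem_primeFactors.2 ⟨hp, hpa, Int.natAbs_ne_zero.2 ha⟩
    have hpJ : p ^ 2 ≤ J := Nat.pow_le_pow_left
      (Nat.le_of_dvd (Nat.pos_of_ne_zero (Int.natAbs_ne_zero.2 ha)) hpa) 2
    have hev : ∀ j : Fin J, (P' (Sum.inr j)).eval u = (j : ℕ) * u := by
      intro j
      simp [P']
    refine pow_dvd hp (by omega) hb hu (X := X') hpJ ?_ ?_
    · intro j hj
      have h1 := (hcol (Sum.inr ⟨j, hj⟩)).1
      rw [hev] at h1
      exact right_ne_zero_of_mul h1
    · have hkey : ∀ j (hj : j < J), ((up p (Q2.eval u * (X' + j * u)) : ℤ) : ZMod (p ^ S)) =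
          α.2 ⟨p, hmem⟩ := by
        intro j hj
        have h1 := (hcol (Sum.inr ⟨j, hj⟩)).2
        rw [hev] at h1
        exact congrFun (congrArg Prod.snd h1) ⟨p, hmem⟩
      intro j hj
      have hJ0 : 0 < J := by omega
      rw [hkey j hj]
      have := hkey 0 hJ0
      rw [this]
  obtain ⟨w, hw⟩ := haN
  refine ⟨a * w * X', a ^ (2 * T + 1) * w ^ 2, α.1, ?_, ?_⟩
  · intro h0
    apply hu
    have h1 : w = 0 := by
      rcases mul_eq_zero.1 h0 with h | h
      · exact absurd h (pow_ne_zero _ ha)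
      · exact pow_eq_zero_iff (two_ne_zero) |>.1 h
    rw [hw, h1, mul_zero]
  · intro i
    set d : ℤ := a ^ (2 * T + 1) * w ^ 2 with hd_def
    set x : ℤ := a * w * X' with hx_def
    have hud : u ^ 2 = a * d := by
      rw [hw, hd_def, hN_def]
      ring
    have hux : u * X' = a ^ T * x := by
      rw [hw, hx_def, hN_def]
      ring
    have hz : Q2.eval u * (X' + (P' (Sum.inl i)).eval u) =
        E * (Q.eval d * (x + (P i).eval d)) := by
      have h1 : (P' (Sum.inl i)).eval u = (R i).eval u := rfl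
      rw [h1, hQ2e, hud, hQ1]
      have h2 := hR i u d hud
      have h3 : u * (a ^ (m - 1) * Q.eval d) * (X' + (R i).eval u) =
          a ^ (m - 1) * Q.eval d * (u * X' + u * (R i).eval u) := by ring
      rw [h3, hux, h2]
      simp only [E]
      rw [pow_add]
      ring
    have h1 := hcol (Sum.inl i)
    rw [hz] at h1
    refine ⟨right_ne_zero_of_mul h1.1, ?_⟩
    have h2 := congrArg Prod.fst h1.2
    simp only [χ] at h2
    rw [Int.mul_ediv_cancel_left _ hE] at h2
    exact h2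

/-- The pattern is partition regular for all monic `Q` with `Q(0) = 0` and all families `P` with
`P_i(0) = 0` if and only if it is partition regular for all `Q ≠ 0` with `Q(0) = 0` and all families
`P` with `P_i(0) = 0`. The left hand side is the known case of the problem, the right hand side is
the question. -/
theorem result :
    (∀ (k : ℕ) (Q : ℤ[X]) (P : Fin k → ℤ[X]), 1 ≤ k → Q.Monic → Q.eval 0 = 0 →
      (∀ i, (P i).eval 0 = 0) → PR Q P) ↔
    (∀ (k : ℕ) (Q : ℤ[X]) (P : Fin k → ℤ[X]), 1 ≤ k → Q ≠ 0 → Q.eval 0 = 0 →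
      (∀ i, (P i).eval 0 = 0) → PR Q P) :=
  ⟨fun h => general_of_monic h, fun h k Q P hk hQ => h k Q P hk hQ.ne_zero⟩

end Pool.Agent.Results.MP_5597c5_co.MonicSuffices
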